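import Mathlib

/-! Counting permutations increasing on fibres. -/

set_option autoImplicit false

namespace Pool.Agent.Lib.MP_d77547_co

open Equiv

variable {n : ℕ}

/-- `σ` is increasing on the fibres of `f`. -/
def Inc {γ : Type*} (f : Fin n → γ) (σ : Perm (Fin n)) : Prop :=
  ∀ i j, i < j → f i = f j → σ i < σ j

/-- `z` is weakly increasing on the fibres of `f`. -/
def WInc {γ δ : Type*} [LE δ] (f : Fin n → γ) (z : Fin n → δ) : Prop :=
  ∀ i j, i < j → f i = f j → z i ≤ z j

/-- `z` is a rearrangement of `s`. -/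
def Same {δ : Type*} (z s : Fin n → δ) : Prop := ∃ τ : Perm (Fin n), z ∘ τ = s

theorem Same.symm {δ : Type*} {z s : Fin n → δ} (h : Same z s) : Same s z := by
  obtain ⟨τ, hτ⟩ := h
  refine ⟨τ.symm, ?_⟩
  rw [← hτ]; funext i; simp

theorem Same.trans {δ : Type*} {z s t : Fin n → δ} (h : Same z s) (h' : Same s t) : Same z t := by
  obtain ⟨τ, rfl⟩ := h
  obtain ⟨τ', rfl⟩ := h'
  exact ⟨τ * τ', by funext i; simp⟩

theorem same_sort {δ : Type*} [LinearOrder δ] (z : Fin n → δ) : Same z (z ∘ Tuple.sort z) :=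
  ⟨Tuple.sort z, rfl⟩

theorem sort_stable {δ : Type*} [LinearOrder δ] (z : Fin n → δ) (i j : Fin n) (hij : i < j)
    (h : z (Tuple.sort z i) = z (Tuple.sort z j)) : Tuple.sort z i < Tuple.sort z j :=
  ((Tuple.eq_sort_iff (f := z) (σ := Tuple.sort z)).mp rfl).2 i j hij h

theorem comp_sort_of_same {δ : Type*} [LinearOrder δ] {z s : Fin n → δ} (hs : Monotone s)
    (h : Same z s) : z ∘ Tuple.sort z = s := by
  obtain ⟨τ, hτ⟩ := h
  rw [← hτ]
  exact Tuple.unique_monotone (Tuple.monotone_sort z) (by rw [hτ]; exact hs)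

theorem inc_inv_iff {γ : Type*} (κ : Fin n → γ) (σ : Perm (Fin n)) :
    Inc κ σ.symm ↔ Inc (κ ∘ σ) σ := by
  constructor
  · intro h i j hij hf
    by_contra hlt
    have hne : σ i ≠ σ j := fun e => hij.ne (σ.injective e)
    have hlt' : σ j < σ i := lt_of_le_of_ne (not_lt.mp hlt) hne.symm
    have := h (σ j) (σ i) hlt' hf.symm
    simp only [Equiv.symm_apply_apply] at this
    exact absurd this (not_lt.mpr hij.le)
  · intro h p q hpq hf
    by_contra hlt
    have hne : σ.symm p ≠ σ.symm q := fun e => hpq.ne (σ.symm.injective e)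
    have hlt' : σ.symm q < σ.symm p := lt_of_le_of_ne (not_lt.mp hlt) hne.symm
    have := h (σ.symm q) (σ.symm p) hlt' (by simp [hf])
    simp only [Equiv.apply_symm_apply] at this
    exact absurd this (not_lt.mpr hpq.le)

/-- Standardization. -/
theorem card_step1 {γ δ : Type*} [LinearOrder δ] (s : Fin n → δ) (hs : Monotone s)
    (κ : Fin n → γ) :
    Nat.card {σ : Perm (Fin n) // Inc s σ ∧ Inc κ σ.symm} =
      Nat.card {z : Fin n → δ // Same z s ∧ WInc κ z} := by
  let F : {σ : Perm (Fin n) // Inc s σ ∧ Inc κ σ.symm} → {z : Fin n → δ // Same z s ∧ WInc κ z} :=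
    fun σ => ⟨s ∘ σ.1.symm, ⟨σ.1, by funext i; simp⟩, fun p q hpq hf =>
      hs (σ.2.2 p q hpq hf).le⟩
  refine Nat.card_eq_of_bijective F ⟨?_, ?_⟩
  · rintro ⟨σ, h1, h2⟩ ⟨τ, h3, h4⟩ h
    have h' : s ∘ σ.symm = s ∘ τ.symm := congrArg Subtype.val h
    apply Subtype.ext
    show σ = τ
    have e1 : σ = Tuple.sort (s ∘ σ.symm) := by
      rw [Tuple.eq_sort_iff]
      constructor
      · have : (s ∘ ⇑σ.symm) ∘ ⇑σ = s := by funext i; simp
        rw [this]; exact hs
      · intro i j hij hf
        simp only [Function.comp, Equiv.symm_apply_apply] at hf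
        exact h1 i j hij hf
    have e2 : τ = Tuple.sort (s ∘ τ.symm) := by
      rw [Tuple.eq_sort_iff]
      constructor
      · have : (s ∘ ⇑τ.symm) ∘ ⇑τ = s := by funext i; simp
        rw [this]; exact hs
      · intro i j hij hf
        simp only [Function.comp, Equiv.symm_apply_apply] at hf
        exact h3 i j hij hf
    rw [e1, e2, h']
  · rintro ⟨z, h1, h2⟩
    have e1 := comp_sort_of_same hs h1
    have key1 : Inc s (Tuple.sort z) := by
      intro i j hij hf
      rw [← e1] at hf
      exact sort_stable z i j hij hf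
    refine ⟨⟨Tuple.sort z, key1, ?_⟩, ?_⟩
    · intro p q hpq hf
      have hz := h2 p q hpq hf
      by_contra hlt
      have hne : (Tuple.sort z).symm p ≠ (Tuple.sort z).symm q :=
        fun e => hpq.ne ((Tuple.sort z).symm.injective e)
      have hlt' : (Tuple.sort z).symm q < (Tuple.sort z).symm p :=
        lt_of_le_of_ne (not_lt.mp hlt) hne.symm
      have hm := hs hlt'.le
      rw [← e1] at hm
      simp only [Function.comp, Equiv.apply_symm_apply] at hm
      have heq : z p = z q := le_antisymm hz hm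
      have := sort_stable z _ _ hlt' (by simp [heq])
      simp only [Equiv.apply_symm_apply] at this
      exact absurd this (not_lt.mpr hpq.le)
    · apply Subtype.ext
      show s ∘ (Tuple.sort z).symm = z
      rw [← e1]; funext i; simp

theorem winc_comp_sort {γ δ : Type*} [LinearOrder γ] [LE δ] (κ : Fin n → γ) (z : Fin n → δ) :
    WInc κ z ↔ WInc (κ ∘ Tuple.sort κ) (z ∘ Tuple.sort κ) := by
  constructor
  · intro h i j hij hf
    exact h _ _ (sort_stable κ i j hij hf) hf
  · intro h p q hpq hf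
    have hne : (Tuple.sort κ).symm p ≠ (Tuple.sort κ).symm q :=
      fun e => hpq.ne ((Tuple.sort κ).symm.injective e)
    rcases lt_or_gt_of_ne hne with hlt | hlt
    · have := h _ _ hlt (by simp [hf])
      simpa using this
    · exfalso
      have := sort_stable κ _ _ hlt (by simp [hf])
      simp only [Equiv.apply_symm_apply] at this
      exact absurd this (not_lt.mpr hpq.le)

theorem card_step2 {γ δ : Type*} [LinearOrder γ] [LinearOrder δ] (s : Fin n → δ)
    (κ : Fin n → γ) :
    Nat.card {z : Fin n → δ // Same z s ∧ WInc κ z} =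
      Nat.card {z : Fin n → δ // Same z s ∧ WInc (κ ∘ Tuple.sort κ) z} := by
  apply Nat.card_congr
  refine
    { toFun := fun z => ⟨z.1 ∘ Tuple.sort κ, ?_, (winc_comp_sort κ z.1).mp z.2.2⟩
      invFun := fun z => ⟨z.1 ∘ (Tuple.sort κ).symm, ?_, ?_⟩
      left_inv := ?_
      right_inv := ?_ }
  · exact (Same.symm ⟨Tuple.sort κ, rfl⟩).trans z.2.1
  · exact (Same.symm ⟨(Tuple.sort κ).symm, rfl⟩).trans z.2.1
  · rw [winc_comp_sort]
    have : (z.1 ∘ ⇑(Tuple.sort κ).symm) ∘ ⇑(Tuple.sort κ) = z.1 := by funext i; simp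
    rw [this]; exact z.2.2
  · intro z; apply Subtype.ext; funext i; simp
  · intro z; apply Subtype.ext; funext i; simp

/-- The main counting symmetry. -/
theorem card_symm {γ δ : Type*} [LinearOrder γ] [LinearOrder δ] (s : Fin n → δ) (hs : Monotone s)
    (κ : Fin n → γ) :
    Nat.card {σ : Perm (Fin n) // Inc s σ ∧ Inc κ σ.symm} =
      Nat.card {h : Fin n → γ // Same h κ ∧ WInc s h} := by
  rw [card_step1 s hs κ, card_step2 s κ]
  set κ' := κ ∘ Tuple.sort κ with hκ'
  have hmono : Monotone κ' := Tuple.monotone_sort κ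
  rw [← card_step1 s hs κ']
  have e : Nat.card {σ : Perm (Fin n) // Inc s σ ∧ Inc κ' σ.symm} =
      Nat.card {σ : Perm (Fin n) // Inc κ' σ ∧ Inc s σ.symm} := by
    apply Nat.card_congr
    refine
      { toFun := fun σ => ⟨σ.1.symm, σ.2.2, by rw [Equiv.symm_symm]; exact σ.2.1⟩
        invFun := fun σ => ⟨σ.1.symm, σ.2.2, by rw [Equiv.symm_symm]; exact σ.2.1⟩
        left_inv := fun σ => by apply Subtype.ext; simp
        right_inv := fun σ => by apply Subtype.ext; simp }
  rw [e, card_step1 κ' hmono s]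
  apply Nat.card_congr
  refine Equiv.subtypeEquivRight fun h => ?_
  constructor
  · rintro ⟨h1, h2⟩
    exact ⟨h1.trans (Same.symm ⟨Tuple.sort κ, rfl⟩), h2⟩
  · rintro ⟨h1, h2⟩
    exact ⟨h1.trans ⟨Tuple.sort κ, rfl⟩, h2⟩

/-- the number of permutations fixing a colouring -/
noncomputable def stab {γ : Type*} (c : Fin n → γ) : ℕ :=
  Nat.card {τ : Perm (Fin n) // c ∘ τ = c}

theorem stab_comp {γ : Type*} (c : Fin n → γ) (σ : Perm (Fin n)) : stab (c ∘ σ) = stab c := by
  unfold stab
  apply Nat.card_congr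
  refine
    { toFun := fun τ => ⟨(σ.symm.trans τ.1).trans σ, ?_⟩
      invFun := fun τ => ⟨(σ.trans τ.1).trans σ.symm, ?_⟩
      left_inv := ?_
      right_inv := ?_ }
  · have h := τ.2
    funext i
    have := congrFun h (σ.symm i)
    simpa using this
  · have h := τ.2
    funext i
    have := congrFun h (σ i)
    simpa using this
  · intro τ; apply Subtype.ext; ext i; simp
  · intro τ; apply Subtype.ext; ext i; simp

theorem card_fiber {γ : Type*} (h κ : Fin n → γ) (hh : Same h κ) :
    Nat.card {τ : Perm (Fin n) // h ∘ τ = κ} = stab κ := by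
  obtain ⟨τ₀, rfl⟩ := hh
  unfold stab
  apply Nat.card_congr
  refine
    { toFun := fun τ => ⟨τ.1.trans τ₀.symm, ?_⟩
      invFun := fun τ => ⟨τ.1.trans τ₀, ?_⟩
      left_inv := ?_
      right_inv := ?_ }
  · have h' := τ.2
    funext i
    have := congrFun h' i
    simpa using this
  · have h' := τ.2
    funext i
    have := congrFun h' i
    simpa using this
  · intro τ; apply Subtype.ext; ext i; simp
  · intro τ; apply Subtype.ext; ext i; simp

open Classical in
/-- For each natural number `m`, the weighted count of colourings. -/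
theorem sum_colorings (m : ℕ) {δ : Type*} [LinearOrder δ] (s : Fin n → δ) (hs : Monotone s) :
    ∑ c : Fin n → Fin m, stab c * Nat.card {σ : Perm (Fin n) // Inc s σ ∧ Inc c σ} =
      n.factorial * Nat.card {h : Fin n → Fin m // WInc s h} := by
  -- rewrite everything as sums of indicators
  have hcard : ∀ c : Fin n → Fin m, Nat.card {σ : Perm (Fin n) // Inc s σ ∧ Inc c σ} =
      ∑ σ : Perm (Fin n), if Inc s σ ∧ Inc c σ then 1 else 0 := by
    intro c
    rw [Nat.card_eq_fintype_card, Fintype.card_subtype, Finset.card_filter]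
  have hcard' : ∀ c : Fin n → Fin m, Nat.card {σ : Perm (Fin n) // Inc s σ ∧ Inc c σ.symm} =
      ∑ σ : Perm (Fin n), if Inc s σ ∧ Inc c σ.symm then 1 else 0 := by
    intro c
    rw [Nat.card_eq_fintype_card, Fintype.card_subtype, Finset.card_filter]
  have step1 : ∑ c : Fin n → Fin m, stab c * Nat.card {σ : Perm (Fin n) // Inc s σ ∧ Inc c σ} =
      ∑ κ : Fin n → Fin m, stab κ * Nat.card {σ : Perm (Fin n) // Inc s σ ∧ Inc κ σ.symm} := by
    simp_rw [hcard, hcard', Finset.mul_sum]
    rw [Finset.sum_comm]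
    rw [Finset.sum_comm (s := (Finset.univ : Finset (Fin n → Fin m)))]
    refine Finset.sum_congr rfl fun σ _ => ?_
    -- reindex colourings by composing with σ
    refine (Equiv.sum_comp (Equiv.arrowCongr σ.symm (Equiv.refl (Fin m)))
      (fun c : Fin n → Fin m => stab c * if Inc s σ ∧ Inc c σ then 1 else 0)).symm.trans ?_
    refine Finset.sum_congr rfl fun κ _ => ?_
    have e : (Equiv.arrowCongr σ.symm (Equiv.refl (Fin m))) κ = κ ∘ σ := by
      funext i
      simp [Equiv.arrowCongr]
    rw [e, stab_comp]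
    simp only [inc_inv_iff]
  rw [step1]
  simp_rw [card_symm s hs]
  have hcard2 : ∀ κ : Fin n → Fin m, Nat.card {h : Fin n → Fin m // Same h κ ∧ WInc s h} =
      ∑ h : Fin n → Fin m, if Same h κ ∧ WInc s h then 1 else 0 := by
    intro c
    rw [Nat.card_eq_fintype_card, Fintype.card_subtype, Finset.card_filter]
  have hcard3 : Nat.card {h : Fin n → Fin m // WInc s h} =
      ∑ h : Fin n → Fin m, if WInc s h then 1 else 0 := by
    rw [Nat.card_eq_fintype_card, Fintype.card_subtype, Finset.card_filter]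
  simp_rw [hcard2, hcard3, Finset.mul_sum]
  rw [Finset.sum_comm]
  refine Finset.sum_congr rfl fun h _ => ?_
  by_cases hW : WInc s h
  · simp only [hW, and_true, if_true, mul_one]
    have h1 : ∀ κ : Fin n → Fin m, (stab κ * if Same h κ then 1 else 0) =
        Nat.card {τ : Perm (Fin n) // h ∘ τ = κ} := by
      intro κ
      by_cases hS : Same h κ
      · rw [if_pos hS, mul_one, card_fiber h κ hS]
      · rw [if_neg hS, mul_zero]
        symm
        rw [Nat.card_eq_zero]
        left
        exact ⟨fun τ => hS ⟨τ.1, τ.2⟩⟩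
    simp_rw [h1]
    have h2 : ∀ κ : Fin n → Fin m, Nat.card {τ : Perm (Fin n) // h ∘ τ = κ} =
        ∑ τ : Perm (Fin n), if h ∘ τ = κ then 1 else 0 := by
      intro κ
      rw [Nat.card_eq_fintype_card, Fintype.card_subtype, Finset.card_filter]
    simp_rw [h2]
    rw [Finset.sum_comm]
    simp [Fintype.card_perm]
  · simp [hW]

end Pool.Agent.Lib.MP_d77547_co
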