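import Pool.Agent.Lib.MP_d77547_co.Parts

set_option autoImplicit false

namespace Pool.Agent.Lib.MP_d77547_co

open Equiv

theorem card_monotone_fin (k m : ℕ) :
    Nat.card {g : Fin k → Fin m // Monotone g} = m.multichoose k := by
  rw [← Sym.card_sym_fin_eq_multichoose, ← Nat.card_eq_fintype_card]
  let F : {g : Fin k → Fin m // Monotone g} → Sym (Fin m) k := fun g =>
    ⟨(List.ofFn g.1 : Multiset (Fin m)), by simp⟩
  refine Nat.card_eq_of_bijective F ⟨?_, ?_⟩
  · intro g g' h
    have h1 : ((List.ofFn g.1 : Multiset (Fin m))) = (List.ofFn g'.1 : Multiset (Fin m)) :=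
      congrArg Subtype.val h
    rw [Multiset.coe_eq_coe] at h1
    have h2 := h1.eq_of_pairwise' (r := (· ≤ ·)) g.2.sortedLE_ofFn.pairwise
      g'.2.sortedLE_ofFn.pairwise
    exact Subtype.ext (List.ofFn_injective h2)
  · rintro ⟨M, hM⟩
    have hlen : M.sort.length = k := by rw [Multiset.length_sort, hM]
    refine ⟨⟨fun i => M.sort.get (i.cast hlen.symm), ?_⟩, ?_⟩
    · intro i j hij
      have h1 : M.sort.SortedLE := (Multiset.pairwise_sort M (· ≤ ·)).sortedLE
      exact h1.monotone_get (by exact_mod_cast hij)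
    · apply Subtype.ext
      show ((List.ofFn fun i : Fin k => M.sort.get (i.cast hlen.symm) : List (Fin m)) :
        Multiset (Fin m)) = M
      have hgen : ∀ (l : List (Fin m)) (h : k = l.length),
          (List.ofFn fun i : Fin k => l.get (i.cast h)) = l := by
        intro l h
        subst h
        exact List.ofFn_get l
      have h2 := hgen (M.sort (fun a b => a ≤ b)) hlen.symm
      rw [h2, Multiset.sort_eq]

theorem card_monotone {A : Type*} [LinearOrder A] [Fintype A] (m : ℕ) :
    Nat.card {g : A → Fin m // Monotone g} = m.multichoose (Fintype.card A) := by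
  rw [← card_monotone_fin]
  let e : Fin (Fintype.card A) ≃o A := Fintype.orderIsoFinOfCardEq A rfl
  apply Nat.card_congr
  exact
    { toFun := fun g => ⟨g.1 ∘ e, g.2.comp e.monotone⟩
      invFun := fun g => ⟨g.1 ∘ e.symm, g.2.comp e.symm.monotone⟩
      left_inv := fun g => by apply Subtype.ext; funext i; simp
      right_inv := fun g => by apply Subtype.ext; funext i; simp }

theorem dep_eq {n m : ℕ} (s : Fin n → ℕ) {P : (v : ℕ) → ({i : Fin n // s i = v} → Fin m) → Prop}
    (G : (v : {v // v ∈ Finset.univ.image s}) → {g : {i : Fin n // s i = v.1} → Fin m // P v.1 g})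
    (v w : {v // v ∈ Finset.univ.image s}) (j : Fin n) (hv : s j = v.1) (hw : s j = w.1) :
    (G v).1 ⟨j, hv⟩ = (G w).1 ⟨j, hw⟩ := by
  have : v = w := Subtype.ext (hv.symm.trans hw)
  subst this; rfl

theorem card_winc {n m : ℕ} (s : Fin n → ℕ) :
    Nat.card {h : Fin n → Fin m // WInc s h} =
      ∏ v ∈ Finset.univ.image s, m.multichoose (Finset.univ.filter (fun i => s i = v)).card := by
  have e : {h : Fin n → Fin m // WInc s h} ≃
      ((v : {v // v ∈ Finset.univ.image s}) → {g : {i : Fin n // s i = v.1} → Fin m // Monotone g}) := by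
    refine
      { toFun := fun h v => ⟨fun i => h.1 i.1, ?_⟩
        invFun := fun G => ⟨fun i => (G ⟨s i, Finset.mem_image_of_mem _ (Finset.mem_univ _)⟩).1
          ⟨i, rfl⟩, ?_⟩
        left_inv := ?_
        right_inv := ?_ }
    · rintro ⟨i, hi⟩ ⟨j, hj⟩ hij
      rcases eq_or_lt_of_le hij with h1 | h1
      · have : i = j := congrArg Subtype.val h1
        subst this; exact le_refl _
      · exact h.2 i j h1 (hi.trans hj.symm)
    · intro i j hij hs
      have hgen : ∀ (v : {v // v ∈ Finset.univ.image s}) (hi : s i = v.1) (hj : s j = v.1),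
          (G v).1 ⟨i, hi⟩ ≤ (G v).1 ⟨j, hj⟩ := fun v hi hj => (G v).2 hij.le
      have h1 := hgen ⟨s i, Finset.mem_image_of_mem _ (Finset.mem_univ _)⟩ rfl hs.symm
      have h2 : (G ⟨s i, Finset.mem_image_of_mem _ (Finset.mem_univ _)⟩).1 ⟨j, hs.symm⟩ =
          (G ⟨s j, Finset.mem_image_of_mem _ (Finset.mem_univ _)⟩).1 ⟨j, rfl⟩ :=
        dep_eq (P := fun v g => Monotone g) s G _ _ _ _ _
      rw [h2] at h1
      exact h1
    · intro h; rfl
    · intro G
      funext v
      apply Subtype.ext
      funext i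
      exact dep_eq (P := fun v g => Monotone g) s G _ _ _ _ _
  rw [Nat.card_congr e, Nat.card_pi]
  symm
  rw [← Finset.prod_coe_sort]
  refine Finset.prod_congr rfl fun v _ => ?_
  rw [card_monotone, Fintype.card_subtype]

theorem multichoose_mul_factorial (m k : ℕ) :
    m.multichoose k * k.factorial = ∏ j ∈ Finset.range k, (m + j) := by
  rw [Nat.multichoose_eq, ← Nat.ascFactorial_eq_prod_range, Nat.ascFactorial_eq_factorial_mul_choose',
    mul_comm]

end Pool.Agent.Lib.MP_d77547_co
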