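import Pool.Agent.Lib.MP_d77547_co.Comb

set_option autoImplicit false

namespace Pool.Agent.Lib.MP_d77547_co

open Equiv

variable {n : ℕ}

/-- The word `f_β(π)` (as a function of the position `p`): if `B` is the block of `β` containing
`π p` and `r` is the number of positions to the left of `p` occupied in `π` by elements of `B`,
then the entry at position `p` is the element of index `r` (counted from `0`) in the increasing
enumeration of `B`. So the set of positions occupied by the elements of `B` is kept, and these
positions are refilled with the elements of `B` in increasing order. -/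
def fBeta (β : Finpartition (Finset.univ : Finset (Fin n))) (π : Perm (Fin n)) (p : Fin n) :
    Fin n :=
  ((β.part (π p)).sort).getD
    (Finset.univ.filter (fun q => q < p ∧ π q ∈ β.part (π p))).card p

section fBeta

variable (β : Finpartition (Finset.univ : Finset (Fin n))) (π : Perm (Fin n))

theorem rank_lt (p : Fin n) :
    (Finset.univ.filter (fun q => q < p ∧ π q ∈ β.part (π p))).card <
      (β.part (π p)).sort.length := by
  rw [Finset.length_sort]
  have h1 : (insert p (Finset.univ.filter (fun q => q < p ∧ π q ∈ β.part (π p)))).card ≤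
      (β.part (π p)).card := by
    apply Finset.card_le_card_of_injOn (fun q => π q)
    · intro q hq
      rw [Finset.mem_coe, Finset.mem_insert] at hq
      rcases hq with rfl | hq
      · exact β.mem_part_self.mpr (Finset.mem_univ _)
      · exact (Finset.mem_filter.mp hq).2.2
    · intro a _ b _ h
      exact π.injective h
  rw [Finset.card_insert_of_notMem (by simp)] at h1
  omega

theorem fBeta_eq (p : Fin n) :
    fBeta β π p = (β.part (π p)).sort[(Finset.univ.filter
      (fun q => q < p ∧ π q ∈ β.part (π p))).card]'(rank_lt β π p) := by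
  unfold fBeta
  rw [List.getD_eq_getElem _ _ (rank_lt β π p)]

theorem fBeta_mem (p : Fin n) : fBeta β π p ∈ β.part (π p) := by
  rw [fBeta_eq]
  have := List.getElem_mem (rank_lt β π p)
  rwa [Finset.mem_sort] at this

theorem part_fBeta (p : Fin n) : β.part (fBeta β π p) = β.part (π p) :=
  β.part_eq_of_mem (β.part_mem.mpr (Finset.mem_univ _)) (fBeta_mem β π p)

theorem fBeta_lt (p q : Fin n) (hpq : p < q) (h : β.part (π p) = β.part (π q)) :
    fBeta β π p < fBeta β π q := by
  have e : fBeta β π p = (β.part (π q)).sort.getD
      (Finset.univ.filter (fun x => x < p ∧ π x ∈ β.part (π q))).card p := by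
    unfold fBeta; rw [h]
  have hlt : (Finset.univ.filter (fun x => x < p ∧ π x ∈ β.part (π q))).card <
      (Finset.univ.filter (fun x => x < q ∧ π x ∈ β.part (π q))).card := by
    apply Finset.card_lt_card
    rw [Finset.ssubset_iff_of_subset]
    · refine ⟨p, ?_, ?_⟩
      · simp only [Finset.mem_filter, Finset.mem_univ, true_and]
        refine ⟨hpq, ?_⟩
        rw [← h]
        exact β.mem_part_self.mpr (Finset.mem_univ _)
      · simp
    · intro x hx
      simp only [Finset.mem_filter, Finset.mem_univ, true_and] at hx ⊢
      exact ⟨hx.1.trans hpq, hx.2⟩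
  have hr := rank_lt β π q
  rw [e, fBeta_eq β π q, List.getD_eq_getElem _ _ (hlt.trans hr)]
  have hs : (β.part (π q)).sort.Pairwise (· < ·) := (Finset.sortedLT_sort _).pairwise
  exact (List.pairwise_iff_getElem.mp hs) _ _ _ _ hlt

theorem fBeta_injective : Function.Injective (fBeta β π) := by
  intro p q h
  by_contra hne
  have hpart : β.part (π p) = β.part (π q) := by
    rw [← part_fBeta β π p, ← part_fBeta β π q, h]
  rcases lt_or_gt_of_ne hne with hlt | hlt
  · exact absurd h (fBeta_lt β π p q hlt hpart).ne
  · exact absurd h.symm (fBeta_lt β π q p hlt hpart.symm).ne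

/-- `f_β(π)` as a permutation -/
noncomputable def fPerm : Perm (Fin n) :=
  Equiv.ofBijective (fBeta β π) (Finite.injective_iff_bijective.mp (fBeta_injective β π))

theorem fPerm_apply (p : Fin n) : fPerm β π p = fBeta β π p := rfl

end fBeta

theorem inc_part_comp_fPerm (β : Finpartition (Finset.univ : Finset (Fin n)))
    (π : Perm (Fin n)) : Inc (β.part ∘ fPerm β π) (fPerm β π) := by
  intro p q hpq h
  simp only [Function.comp, fPerm_apply, part_fBeta] at h
  exact fBeta_lt β π p q hpq h

theorem le_of_inc {γ : Type*} (f : Fin n → γ) (τ : Perm (Fin n)) (h1 : f ∘ τ = f)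
    (h2 : Inc f τ) : ∀ (k : ℕ) (x : Fin n), x.val = k → x ≤ τ x := by
  intro k
  induction k using Nat.strong_induction_on with
  | _ k ih =>
    intro x hx
    by_contra hlt
    have hlt' : τ x < x := not_le.mp hlt
    have h3 := ih (τ x).val (by have : (τ x).val < x.val := hlt'; omega) (τ x) rfl
    have h4 := h2 (τ x) x hlt' (congrFun h1 x)
    exact absurd h3 (not_le.mpr h4)

theorem unique_inc {γ : Type*} (f : Fin n → γ) (w w' : Perm (Fin n)) (h : f ∘ w = f ∘ w')
    (hw : Inc (f ∘ w) w) (hw' : Inc (f ∘ w) w') : w = w' := by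
  have key : ∀ (a b : Perm (Fin n)), f ∘ a = f ∘ b → Inc (f ∘ a) a → Inc (f ∘ a) b →
      ∀ p, a p ≤ b p := by
    intro a b hab ha hb p
    have h1 : f ∘ (a.symm.trans b) = f := by
      funext x
      have := congrFun hab (a.symm x)
      simp only [Function.comp, Equiv.apply_symm_apply] at this
      simp [this]
    have h2 : Inc f (a.symm.trans b) := by
      intro x y hxy hf
      have ha' := (inc_inv_iff f a).mpr ha
      have h3 := ha' x y hxy hf
      exact hb _ _ h3 (by simp [hf])
    have h4 := le_of_inc f (a.symm.trans b) h1 h2 (a p).val (a p) rfl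
    simpa using h4
  ext p
  have h1 := key w w' h hw hw' p
  have h2 := key w' w h.symm (h ▸ hw') (h ▸ hw) p
  exact congrArg Fin.val (le_antisymm h1 h2)

theorem fPerm_eq_iff (β : Finpartition (Finset.univ : Finset (Fin n)))
    (w : Perm (Fin n)) (hw : Inc (β.part ∘ w) w) (π : Perm (Fin n)) :
    fPerm β π = w ↔ β.part ∘ π = β.part ∘ w := by
  constructor
  · rintro rfl
    funext p
    simp only [Function.comp, fPerm_apply, part_fBeta]
  · intro h
    have h1 : β.part ∘ fPerm β π = β.part ∘ w := by
      rw [← h]
      funext p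
      simp only [Function.comp, fPerm_apply, part_fBeta]
    have h2 := inc_part_comp_fPerm β π
    exact unique_inc β.part _ _ h1 h2 (h1 ▸ hw)

open Classical in
/-- Summing over `π` for a fixed set partition. -/
theorem sum_pi {δ : Type*} [LinearOrder δ] (s : Fin n → δ)
    (β : Finpartition (Finset.univ : Finset (Fin n))) :
    (∑ π : Perm (Fin n), if Inc s (fPerm β π).symm then 1 else 0) =
      stab β.part * Nat.card {σ : Perm (Fin n) // Inc s σ ∧ Inc β.part σ} := by
  have h1 : ∀ π : Perm (Fin n), (if Inc s (fPerm β π).symm then 1 else 0) =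
      ∑ w : Perm (Fin n), if (Inc (β.part ∘ w) w ∧ Inc s w.symm) ∧ fPerm β π = w then 1 else 0 := by
    intro π
    rw [Finset.sum_eq_single (fPerm β π)]
    · simp [inc_part_comp_fPerm β π]
    · intro w _ hw
      rw [if_neg]
      rintro ⟨-, h⟩
      exact hw h.symm
    · intro h; exact absurd (Finset.mem_univ _) h
  rw [Finset.sum_congr rfl (fun π _ => h1 π), Finset.sum_comm]
  have h2 : ∀ w : Perm (Fin n), (∑ π : Perm (Fin n),
      if (Inc (β.part ∘ w) w ∧ Inc s w.symm) ∧ fPerm β π = w then 1 else 0) =
      if Inc (β.part ∘ w) w ∧ Inc s w.symm then stab β.part else 0 := by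
    intro w
    by_cases hw : Inc (β.part ∘ w) w ∧ Inc s w.symm
    · simp only [hw, true_and, and_self, if_true]
      rw [← stab_comp β.part w, ← card_fiber β.part (β.part ∘ w) ⟨w, rfl⟩,
        Nat.card_eq_fintype_card, Fintype.card_subtype, Finset.card_filter]
      refine Finset.sum_congr rfl fun π _ => ?_
      simp only [fPerm_eq_iff β w hw.1 π]
    · simp [hw]
  rw [Finset.sum_congr rfl (fun w _ => h2 w), ← Finset.sum_filter, Finset.sum_const, smul_eq_mul,
    mul_comm]
  congr 1
  rw [← Fintype.card_subtype, ← Nat.card_eq_fintype_card]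
  apply Nat.card_congr
  refine
    { toFun := fun w => ⟨w.1.symm, w.2.2, (inc_inv_iff β.part w.1).mpr w.2.1⟩
      invFun := fun σ => ⟨σ.1.symm, ?_, by rw [Equiv.symm_symm]; exact σ.2.1⟩
      left_inv := fun w => by apply Subtype.ext; simp
      right_inv := fun w => by apply Subtype.ext; simp }
  rw [← inc_inv_iff, Equiv.symm_symm]
  exact σ.2.2

/-- `c` has kernel `β` -/
def Ker {m : ℕ} (c : Fin n → Fin m) (β : Finpartition (Finset.univ : Finset (Fin n))) : Prop :=
  ∀ i j, c i = c j ↔ β.part i = β.part j

theorem card_ker (m : ℕ) (β : Finpartition (Finset.univ : Finset (Fin n))) :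
    Nat.card {c : Fin n → Fin m // Ker c β} = m.descFactorial β.parts.card := by
  have e : {c : Fin n → Fin m // Ker c β} ≃ ({B // B ∈ β.parts} ↪ Fin m) := by
    refine
      { toFun := fun c => ⟨fun B => c.1 (β.nonempty_of_mem_parts B.2).choose, ?_⟩
        invFun := fun g => ⟨fun i => g ⟨β.part i, β.part_mem.mpr (Finset.mem_univ _)⟩, ?_⟩
        left_inv := ?_
        right_inv := ?_ }
    · intro B B' h
      have h1 := (c.2 _ _).mp h
      have h2 : β.part (β.nonempty_of_mem_parts B.2).choose = B.1 :=
        β.part_eq_of_mem B.2 (β.nonempty_of_mem_parts B.2).choose_spec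
      have h3 : β.part (β.nonempty_of_mem_parts B'.2).choose = B'.1 :=
        β.part_eq_of_mem B'.2 (β.nonempty_of_mem_parts B'.2).choose_spec
      rw [h2, h3] at h1
      exact Subtype.ext h1
    · intro i j
      rw [g.injective.eq_iff, Subtype.mk.injEq]
    · intro c
      apply Subtype.ext
      funext i
      show c.1 _ = c.1 i
      rw [c.2]
      exact β.part_eq_of_mem (β.part_mem.mpr (Finset.mem_univ _))
        (β.nonempty_of_mem_parts (β.part_mem.mpr (Finset.mem_univ i))).choose_spec
    · intro g
      ext B
      show (g ⟨β.part _, _⟩ : ℕ) = (g B : ℕ)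
      congr 2
      apply Subtype.ext
      exact β.part_eq_of_mem B.2 (β.nonempty_of_mem_parts B.2).choose_spec
  rw [Nat.card_congr e, Nat.card_eq_fintype_card, Fintype.card_embedding_eq]
  simp

theorem exists_ker {m : ℕ} (c : Fin n → Fin m) :
    ∃ β : Finpartition (Finset.univ : Finset (Fin n)), Ker c β := by
  classical
  refine ⟨Finpartition.ofSetoid (Setoid.ker c), fun i j => ?_⟩
  rw [← Finpartition.mem_part_iff_part_eq_part _ (Finset.mem_univ i) (Finset.mem_univ j)]
  rw [Finpartition.mem_part_ofSetoid_iff_rel]
  rw [Setoid.ker_def]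
  exact eq_comm

theorem ker_unique {m : ℕ} (c : Fin n → Fin m)
    (β β' : Finpartition (Finset.univ : Finset (Fin n))) (h : Ker c β) (h' : Ker c β') :
    β = β' := by
  have hpart : ∀ i, β.part i = β'.part i := by
    intro i
    ext j
    rw [β.mem_part_iff_part_eq_part (Finset.mem_univ j) (Finset.mem_univ i),
      β'.mem_part_iff_part_eq_part (Finset.mem_univ j) (Finset.mem_univ i)]
    rw [← h, ← h']
  have hparts : ∀ (γ γ' : Finpartition (Finset.univ : Finset (Fin n))),
      (∀ i, γ.part i = γ'.part i) → γ.parts ⊆ γ'.parts := by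
    intro γ γ' hh B hB
    obtain ⟨i, hi⟩ := γ.nonempty_of_mem_parts hB
    rw [← γ.part_eq_of_mem hB hi, hh]
    exact γ'.part_mem.mpr (Finset.mem_univ _)
  apply Finpartition.ext
  exact Finset.Subset.antisymm (hparts _ _ hpart) (hparts _ _ fun i => (hpart i).symm)

open Classical in
/-- Evaluation of the sum over set partitions at a natural number. -/
theorem sum_partitions (m : ℕ) {δ : Type*} [LinearOrder δ] (s : Fin n → δ) (hs : Monotone s) :
    ∑ β : Finpartition (Finset.univ : Finset (Fin n)), m.descFactorial β.parts.card *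
      (∑ π : Perm (Fin n), if Inc s (fPerm β π).symm then 1 else 0) =
      n.factorial * Nat.card {h : Fin n → Fin m // WInc s h} := by
  rw [← sum_colorings m s hs]
  have h1 : ∀ β : Finpartition (Finset.univ : Finset (Fin n)), m.descFactorial β.parts.card *
      (∑ π : Perm (Fin n), if Inc s (fPerm β π).symm then 1 else 0) =
      ∑ c : Fin n → Fin m, if Ker c β then
        stab c * Nat.card {σ : Perm (Fin n) // Inc s σ ∧ Inc c σ} else 0 := by
    intro β
    rw [sum_pi, ← card_ker, Nat.card_eq_fintype_card, Fintype.card_subtype, Finset.card_filter,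
      Finset.sum_mul]
    refine Finset.sum_congr rfl fun c _ => ?_
    by_cases hc : Ker c β
    · rw [if_pos hc, if_pos hc, one_mul]
      congr 1
      · unfold stab
        apply Nat.card_congr
        refine Equiv.subtypeEquivRight fun τ => ?_
        constructor
        · intro h; funext i
          exact (hc _ _).mpr (congrFun h i)
        · intro h; funext i
          exact (hc _ _).mp (congrFun h i)
      · apply Nat.card_congr
        refine Equiv.subtypeEquivRight fun σ => ?_
        refine and_congr_right fun _ => ?_
        constructor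
        · intro h i j hij hf; exact h i j hij ((hc _ _).mp hf)
        · intro h i j hij hf; exact h i j hij ((hc _ _).mpr hf)
    · rw [if_neg hc, if_neg hc, zero_mul]
  rw [Finset.sum_congr rfl (fun β _ => h1 β), Finset.sum_comm]
  refine Finset.sum_congr rfl fun c _ => ?_
  obtain ⟨β, hβ⟩ := exists_ker c
  rw [Finset.sum_eq_single β]
  · rw [if_pos hβ]
  · intro β' _ hne
    rw [if_neg]
    intro h
    exact hne (ker_unique c β' β h hβ)
  · intro h; exact absurd (Finset.mem_univ _) h

end Pool.Agent.Lib.MP_d77547_co
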