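import Mathlib

/-! RSK row insertion and descents of the insertion tableau. -/

set_option autoImplicit false

open scoped List

namespace Pool.Agent.Lib.MP_d77547_co

/-- Row insertion of `x` into a row: `x` replaces the leftmost entry `y` greater than `x`, and `y`
is bumped; if there is no such entry then `x` is appended at the end of the row and nothing is
bumped. Returns the new row and the bumped entry. -/
def insertRow (x : ℕ) : List ℕ → List ℕ × Option ℕ
  | [] => ([x], none)
  | y :: ys => if x < y then (x :: ys, some y) else (y :: (insertRow x ys).1, (insertRow x ys).2)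

/-- RSK insertion of `x` into a tableau, given as the list of its rows from top to bottom
(English notation): insert `x` into the first row, insert the bumped entry (if any) into the
second row, and so on. -/
def insertTab (x : ℕ) : List (List ℕ) → List (List ℕ)
  | [] => [[x]]
  | r :: rs =>
    match (insertRow x r).2 with
    | none => (insertRow x r).1 :: rs
    | some y => (insertRow x r).1 :: insertTab y rs

/-- The RSK insertion tableau `P(w)` of a word `w`, obtained by inserting the letters of `w` from
left to right into the empty tableau; it is given as the list of its rows from top to bottom. -/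
def insertionTableau (w : List ℕ) : List (List ℕ) := w.foldl (fun T x => insertTab x T) []

/-- The descent set of a tableau (a list of rows from top to bottom): the set of all `i` such that
`i + 1` lies in a row strictly below the row of `i`. -/
def Des (T : List (List ℕ)) : Set ℕ :=
  {i | ∃ a b : ℕ, a < b ∧ i ∈ T.getD a [] ∧ i + 1 ∈ T.getD b []}

/-- reading word: rows from bottom to top -/
def read : List (List ℕ) → List ℕ
  | [] => []
  | r :: rs => read rs ++ r

/-- same letters, and the same consecutive inversions -/
def R (u v : List ℕ) : Prop := u.Perm v ∧ ∀ i, [i + 1, i] <+ u ↔ [i + 1, i] <+ v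

theorem R.refl (u : List ℕ) : R u u := ⟨List.Perm.refl _, fun _ => Iff.rfl⟩
theorem R.symm {u v : List ℕ} (h : R u v) : R v u := ⟨h.1.symm, fun i => (h.2 i).symm⟩
theorem R.trans {u v w : List ℕ} (h : R u v) (h' : R v w) : R u w :=
  ⟨h.1.trans h'.1, fun i => (h.2 i).trans (h'.2 i)⟩

theorem pair_sublist_append (a b : ℕ) (u v : List ℕ) :
    [a, b] <+ u ++ v ↔ [a, b] <+ u ∨ [a, b] <+ v ∨ (a ∈ u ∧ b ∈ v) := by
  rw [List.sublist_append_iff]
  constructor
  · rintro ⟨l1, l2, h, h1, h2⟩
    rcases l1 with _ | ⟨x, l1⟩
    · simp only [List.nil_append] at h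
      subst h
      exact Or.inr (Or.inl h2)
    · rcases l1 with _ | ⟨y, l1⟩
      · simp only [List.cons_append, List.nil_append, List.cons.injEq] at h
        obtain ⟨rfl, rfl⟩ := h
        rw [List.singleton_sublist] at h1 h2
        exact Or.inr (Or.inr ⟨h1, h2⟩)
      · simp only [List.cons_append, List.cons.injEq] at h
        obtain ⟨rfl, rfl, h⟩ := h
        have h3 : l1 = [] ∧ l2 = [] := by
          rcases l1 with _ | ⟨z, l1⟩
          · simpa using h
          · simp at h
        rw [h3.1] at h1
        exact Or.inl h1
  · rintro (h | h | ⟨h1, h2⟩)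
    · exact ⟨[a, b], [], by simp, h, List.nil_sublist _⟩
    · exact ⟨[], [a, b], by simp, List.nil_sublist _, h⟩
    · exact ⟨[a], [b], by simp, List.singleton_sublist.mpr h1, List.singleton_sublist.mpr h2⟩

theorem R.append {u v u' v' : List ℕ} (h : R u v) (h' : R u' v') : R (u ++ u') (v ++ v') := by
  refine ⟨h.1.append h'.1, fun i => ?_⟩
  rw [pair_sublist_append, pair_sublist_append, h.2, h'.2, h.1.mem_iff, h'.1.mem_iff]

/-- In a strictly increasing list there is no inversion. -/
theorem no_inv {r : List ℕ} (hr : r.Pairwise (· < ·)) (i : ℕ) : ¬ [i + 1, i] <+ r := by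
  intro h
  have := hr.sublist h
  simp at this

/-- Description of row insertion. -/
theorem insertRow_spec (x : ℕ) (r : List ℕ) (hr : r.Pairwise (· < ·)) (hx : x ∉ r) :
    ((insertRow x r).2 = none ∧ (insertRow x r).1 = r ++ [x] ∧ ∀ a ∈ r, a < x) ∨
    (∃ r1 y r2, (insertRow x r).2 = some y ∧ (insertRow x r).1 = r1 ++ x :: r2 ∧
      r = r1 ++ y :: r2 ∧ x < y ∧ ∀ a ∈ r1, a < x) := by
  induction r with
  | nil => left; simp [insertRow]
  | cons z zs ih =>
    rw [List.pairwise_cons] at hr
    rw [List.mem_cons, not_or] at hx
    unfold insertRow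
    by_cases h : x < z
    · right
      refine ⟨[], z, zs, ?_⟩
      simp [h]
    · rw [if_neg h]
      have hzx : z < x := lt_of_le_of_ne (not_lt.mp h) (Ne.symm hx.1)
      rcases ih hr.2 hx.2 with ⟨h1, h2, h3⟩ | ⟨r1, y, r2, h1, h2, h3, h4, h5⟩
      · left
        refine ⟨h1, by simp [h2], ?_⟩
        intro a ha
        rw [List.mem_cons] at ha
        rcases ha with rfl | ha
        · exact hzx
        · exact h3 a ha
      · right
        refine ⟨z :: r1, y, r2, h1, by simp [h2], by simp [h3], h4, ?_⟩
        intro a ha
        rw [List.mem_cons] at ha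
        rcases ha with rfl | ha
        · exact hzx
        · exact h5 a ha

theorem pair_sublist_cons (a b c : ℕ) (u : List ℕ) :
    [a, b] <+ c :: u ↔ [a, b] <+ u ∨ (a = c ∧ b ∈ u) := by
  rw [List.cons_sublist_cons']
  simp [List.singleton_sublist]

theorem R_bump (r1 r2 : List ℕ) (x y : ℕ) (hr : (r1 ++ y :: r2).Pairwise (· < ·)) (hxy : x < y)
    (h1 : ∀ a ∈ r1, a < x) : R (y :: (r1 ++ x :: r2)) ((r1 ++ y :: r2) ++ [x]) := by
  rw [List.pairwise_append, List.pairwise_cons] at hr
  obtain ⟨hr1, ⟨hy2, hr2⟩, -⟩ := hr
  refine ⟨?_, fun i => ?_⟩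
  · have e1 : (y :: (r1 ++ x :: r2)).Perm (y :: x :: (r1 ++ r2)) :=
      List.Perm.cons y List.perm_middle
    have e2 : ((r1 ++ y :: r2) ++ [x]).Perm (x :: y :: (r1 ++ r2)) := by
      refine (List.perm_append_singleton _ _).trans ?_
      exact List.Perm.cons x List.perm_middle
    exact e1.trans ((List.Perm.swap x y _).trans e2.symm)
  · have n1 := no_inv hr1 i
    have n2 := no_inv hr2 i
    have key : ([i + 1, i] <+ y :: (r1 ++ x :: r2)) ↔ (i + 1 = y ∧ i = x) := by
      rw [pair_sublist_cons, pair_sublist_append, pair_sublist_cons]
      simp only [List.mem_append, List.mem_cons]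
      constructor
      · rintro ((h | (h | h) | h) | h)
        · exact absurd h n1
        · exact absurd h n2
        · have := hy2 i h.2; omega
        · rcases h with ⟨ha, rfl | hb⟩
          · have := h1 _ ha; omega
          · have := h1 _ ha
            have := hy2 i hb; omega
        · rcases h with ⟨ha, hb | rfl | hb⟩
          · have := h1 _ hb; omega
          · exact ⟨ha, rfl⟩
          · have := hy2 _ hb; omega
      · rintro ⟨ha, rfl⟩
        exact Or.inr ⟨ha, Or.inr (Or.inl rfl)⟩
    have key2 : ([i + 1, i] <+ (r1 ++ y :: r2) ++ [x]) ↔ (i + 1 = y ∧ i = x) := by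
      rw [pair_sublist_append, pair_sublist_append, pair_sublist_cons]
      simp only [List.mem_append, List.mem_cons, List.not_mem_nil, or_false]
      constructor
      · rintro ((h | (h | h) | h) | h | h)
        · exact absurd h n1
        · exact absurd h n2
        · have := hy2 i h.2; omega
        · rcases h with ⟨ha, rfl | hb⟩
          · have := h1 _ ha; omega
          · have := h1 _ ha
            have := hy2 i hb; omega
        · have := List.Sublist.length_le h
          simp at this
        · rcases h with ⟨ha | rfl | hb, rfl⟩
          · have := h1 _ ha; omega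
          · exact ⟨rfl, rfl⟩
          · have := hy2 _ hb; omega
      · rintro ⟨ha, rfl⟩
        exact Or.inr (Or.inr ⟨Or.inr (Or.inl ha), rfl⟩)
    rw [key, key2]

/-- all rows strictly increasing -/
def RowsInc (T : List (List ℕ)) : Prop := ∀ r ∈ T, r.Pairwise (· < ·)

theorem insertTab_spec (T : List (List ℕ)) : ∀ (x : ℕ), RowsInc T → (read T ++ [x]).Nodup →
    RowsInc (insertTab x T) ∧ R (read (insertTab x T)) (read T ++ [x]) := by
  induction T with
  | nil =>
    intro x _ _
    refine ⟨?_, ?_⟩
    · intro r hr
      simp only [insertTab, List.mem_singleton] at hr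
      subst hr
      simp
    · exact R.refl _
  | cons r rs ih =>
    intro x hT hnd
    have hr : r.Pairwise (· < ·) := hT r (by simp)
    have hrs : RowsInc rs := fun s hs => hT s (by simp [hs])
    simp only [read] at hnd
    rw [List.append_assoc, List.nodup_append] at hnd
    obtain ⟨hnd1, hnd2, hnd3⟩ := hnd
    have hx : x ∉ r := by
      rw [List.nodup_append] at hnd2
      intro hxr
      exact hnd2.2.2 x hxr x (by simp) rfl
    rcases insertRow_spec x r hr hx with ⟨h1, h2, h3⟩ | ⟨r1, y, r2, h1, h2, h3, h4, h5⟩
    · have hins : insertTab x (r :: rs) = (r ++ [x]) :: rs := by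
        rw [insertTab, h1]; simp only [h2]
      rw [hins]
      refine ⟨?_, ?_⟩
      · intro s hs
        rw [List.mem_cons] at hs
        rcases hs with rfl | hs
        · rw [List.pairwise_append]
          exact ⟨hr, by simp, fun a ha b hb => by
            rw [List.mem_singleton] at hb; subst hb; exact h3 a ha⟩
        · exact hrs s hs
      · have : read ((r ++ [x]) :: rs) = read (r :: rs) ++ [x] := by
          simp [read, List.append_assoc]
        rw [this]
        exact R.refl _
    · have hins : insertTab x (r :: rs) = (r1 ++ x :: r2) :: insertTab y rs := by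
        rw [insertTab, h1]; simp only [h2]
      rw [hins]
      have hy : y ∉ read rs := by
        intro hy
        refine hnd3 y hy y ?_ rfl
        rw [h3]; simp
      have hnd' : (read rs ++ [y]).Nodup := by
        rw [List.nodup_append]
        refine ⟨hnd1, by simp, ?_⟩
        intro a ha b hb
        rw [List.mem_singleton] at hb
        subst hb
        rintro rfl
        exact hy ha
      obtain ⟨ih1, ih2⟩ := ih y hrs hnd'
      have hr' := hr
      rw [h3, List.pairwise_append, List.pairwise_cons] at hr'
      refine ⟨?_, ?_⟩
      · intro s hs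
        rw [List.mem_cons] at hs
        rcases hs with rfl | hs
        · rw [List.pairwise_append, List.pairwise_cons]
          refine ⟨hr'.1, ⟨fun a ha => ?_, hr'.2.1.2⟩, ?_⟩
          · have := hr'.2.1.1 a ha; omega
          · intro a ha b hb
            rw [List.mem_cons] at hb
            rcases hb with rfl | hb
            · exact h5 a ha
            · exact hr'.2.2 a ha b (by simp [hb])
        · exact ih1 s hs
      · simp only [read]
        have e1 : R (read (insertTab y rs) ++ (r1 ++ x :: r2)) ((read rs ++ [y]) ++ (r1 ++ x :: r2)) :=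
          ih2.append (R.refl _)
        have e2 : R (read rs ++ (y :: (r1 ++ x :: r2))) (read rs ++ ((r1 ++ y :: r2) ++ [x])) :=
          (R.refl _).append (R_bump r1 r2 x y (h3 ▸ hr) h4 h5)
        have e3 : (read rs ++ [y]) ++ (r1 ++ x :: r2) = read rs ++ (y :: (r1 ++ x :: r2)) := by simp
        rw [e3] at e1
        rw [List.append_assoc]
        conv_rhs => rw [h3]
        exact e1.trans e2

theorem insertionTableau_concat (w : List ℕ) (x : ℕ) :
    insertionTableau (w ++ [x]) = insertTab x (insertionTableau w) := by
  simp [insertionTableau, List.foldl_append]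

theorem insertionTableau_spec (w : List ℕ) (hw : w.Nodup) :
    RowsInc (insertionTableau w) ∧ R (read (insertionTableau w)) w := by
  induction w using List.reverseRecOn with
  | nil => exact ⟨fun r hr => by simp [insertionTableau] at hr, R.refl _⟩
  | append_singleton w x ih =>
    have hw' : w.Nodup := (List.nodup_append.mp hw).1
    obtain ⟨h1, h2⟩ := ih hw'
    rw [insertionTableau_concat]
    have hnd : (read (insertionTableau w) ++ [x]).Nodup :=
      ((h2.1.append_right [x]).nodup_iff).mpr hw
    obtain ⟨h3, h4⟩ := insertTab_spec (insertionTableau w) x h1 hnd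
    exact ⟨h3, h4.trans (h2.append (R.refl _))⟩

theorem mem_read (T : List (List ℕ)) (i : ℕ) : i ∈ read T ↔ ∃ b, i ∈ T.getD b [] := by
  induction T with
  | nil => simp [read]
  | cons r rs ih =>
    simp only [read, List.mem_append, ih]
    constructor
    · rintro (⟨b, hb⟩ | h)
      · exact ⟨b + 1, by simpa using hb⟩
      · exact ⟨0, by simpa using h⟩
    · rintro ⟨b, hb⟩
      rcases b with _ | b
      · right; simpa using hb
      · left; exact ⟨b, by simpa using hb⟩

theorem mem_Des_iff_read (T : List (List ℕ)) (hT : RowsInc T) (i : ℕ) :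
    i ∈ Des T ↔ [i + 1, i] <+ read T := by
  induction T with
  | nil => simp [Des, read]
  | cons r rs ih =>
    have hr : r.Pairwise (· < ·) := hT r (by simp)
    have hrs : RowsInc rs := fun s hs => hT s (by simp [hs])
    have n1 := no_inv hr i
    simp only [read]
    rw [pair_sublist_append, ← ih hrs, mem_read]
    simp only [Des, Set.mem_ofPred_eq]
    constructor
    · rintro ⟨a, b, hab, ha, hb⟩
      rcases b with _ | b
      · omega
      · rcases a with _ | a
        · right; right
          exact ⟨⟨b, by simpa using hb⟩, by simpa using ha⟩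
        · left
          exact ⟨a, b, by omega, by simpa using ha, by simpa using hb⟩
    · rintro (⟨a, b, hab, ha, hb⟩ | h | ⟨⟨b, hb⟩, ha⟩)
      · exact ⟨a + 1, b + 1, by omega, by simpa using ha, by simpa using hb⟩
      · exact absurd h n1
      · exact ⟨0, b + 1, by omega, by simpa using ha, by simpa using hb⟩

/-- The descents of `P(w)` are the `i` such that `i + 1` occurs to the left of `i` in `w`. -/
theorem mem_Des_insertionTableau (w : List ℕ) (hw : w.Nodup) (i : ℕ) :
    i ∈ Des (insertionTableau w) ↔ [i + 1, i] <+ w := by
  obtain ⟨h1, h2⟩ := insertionTableau_spec w hw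
  rw [mem_Des_iff_read _ h1, h2.2]

end Pool.Agent.Lib.MP_d77547_co
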